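import Mathlib
import Pool.Agent.Q236.QF.A
import Pool.Agent.Helper270.QD

/-! Finite quotients of `Q(n,m)` from the affine action over finite fields. -/

set_option linter.unusedSectionVars false

namespace Pool.Agent.Q236.QF

open H270Q (nielsen Q ab ab_of ab_of_ne ab_auto_ne nielsen_pow_zero nielsen_pow_ne)

open Finset

/-- the commutator of the `p^k`-th powers of the first two generators -/
def ww (n k p : ℕ) (hn : 2 ≤ n) : FreeGroup (Fin n) :=
  FreeGroup.of ⟨0, by omega⟩ ^ (p ^ k) * FreeGroup.of ⟨1, by omega⟩ ^ (p ^ k) *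
    (FreeGroup.of ⟨1, by omega⟩ ^ (p ^ k) * FreeGroup.of ⟨0, by omega⟩ ^ (p ^ k))⁻¹

section
variable {G : Type*} [Group G] {F : Type*} [Field F]
variable {n : ℕ} (hn : 2 ≤ n) {c : G} {ω : F} {p : ℕ} (μ : FreeGroup (Fin n) →* G)

theorem rho_pow_zero (D : ℕ) (f : G → F) :
    rho hn c ω p μ (FreeGroup.of ⟨0, by omega⟩ ^ D) f =
      L (μ (FreeGroup.of ⟨0, by omega⟩) ^ D) f +
      ∑ i ∈ range D, L (μ (FreeGroup.of ⟨0, by omega⟩) ^ i) (v0 c ω p) := by
  induction D with
  | zero => simp [L_one]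
  | succ D ih =>
    rw [pow_succ', map_mul, Equiv.Perm.mul_apply, ih, rho_of, if_pos rfl, L_add, ← L_mul,
      ← pow_succ', Finset.sum_range_succ', pow_zero, L_one, add_assoc]
    congr 2
    have : ∀ (s : Finset ℕ) (F' : ℕ → (G → F)) (g : G),
        L g (∑ i ∈ s, F' i) = ∑ i ∈ s, L g (F' i) := by
      intro s F' g
      funext x
      simp [L, Finset.sum_apply]
    rw [this]
    apply Finset.sum_congr rfl
    intro i _
    rw [← L_mul, ← pow_succ']

theorem rho_pow_one (D : ℕ) (f : G → F) :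
    rho hn c ω p μ (FreeGroup.of ⟨1, by omega⟩ ^ D) f =
      L (μ (FreeGroup.of ⟨1, by omega⟩) ^ D) f := by
  induction D with
  | zero => simp [L_one]
  | succ D ih =>
    rw [pow_succ', map_mul, Equiv.Perm.mul_apply, ih, rho_of, if_neg (by simp), add_zero, ← L_mul,
      ← pow_succ']

theorem conj_order [Fact p.Prime] {k : ℕ} (hc : ∀ g, c * g = g * c) (hcp : c ^ p = 1)
    (hc1 : c ≠ 1) (hω : IsPrimitiveRoot ω p)
    (H : ∀ g, ab n p g ≠ 1 → ∃ s : ℕ, ¬ p ∣ s ∧ μ g ^ (p ^ k) = c ^ s) (j : ℕ)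
    (hmem0 : (MulAut.conj (ww n k p hn)) ^ j ∈ Krho hn μ c ω p) : (j : F) = 0 := by
  classical
  have hp : p.Prime := Fact.out
  have hω0 : ω ≠ 0 := hω.ne_zero hp.ne_zero
  set α : FreeGroup (Fin n) := FreeGroup.of ⟨0, by omega⟩ ^ (p ^ k) with hα
  set β : FreeGroup (Fin n) := FreeGroup.of ⟨1, by omega⟩ ^ (p ^ k) with hβ
  obtain ⟨s1, hs1, e1⟩ := H (FreeGroup.of ⟨0, by omega⟩) (ab_of_ne p _)
  obtain ⟨s2, hs2, e2⟩ := H (FreeGroup.of ⟨1, by omega⟩) (ab_of_ne p _)
  set b : G → F := ∑ i ∈ range (p ^ k), L (μ (FreeGroup.of ⟨0, by omega⟩) ^ i) (v0 c ω p) with hb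
  have hbV : InV c ω b := by
    have : ∀ (s : Finset ℕ), InV c ω
        (∑ i ∈ s, L (μ (FreeGroup.of ⟨0, by omega⟩) ^ i) (v0 c ω p)) := by
      intro s
      induction s using Finset.induction_on with
      | empty => simpa using InV.zero c ω
      | insert a s ha ih =>
        rw [Finset.sum_insert ha]
        exact ((v0_inV hcp hω.pow_eq_one).L hc _).add ih
    exact this _
  set τ1 : F := (ω⁻¹) ^ s1 with hτ1
  set τ2 : F := (ω⁻¹) ^ s2 with hτ2
  have hτ2' : τ2 ≠ 1 := by
    rw [hτ2, inv_pow, Ne, inv_eq_one]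
    intro h'
    exact hs2 ((hω.pow_eq_one_iff_dvd s2).1 h')
  have hρα : ∀ f, InV c ω f → rho hn c ω p μ α f = τ1 • f + b := by
    intro f hf
    rw [hα, rho_pow_zero, e1, hf.pow hω0]
  have hρβ : ∀ f, InV c ω f → rho hn c ω p μ β f = τ2 • f := by
    intro f hf
    rw [hβ, rho_pow_one, e2, hf.pow hω0]
  -- `b ≠ 0`
  have hb0 : b ≠ 0 := by
    intro h0
    have h1 : b 1 = 0 := by rw [h0]; rfl
    have h2 : b 1 = 1 := by
      rw [hb, Finset.sum_apply, Finset.sum_eq_single 0]
      · rw [pow_zero, L_one]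
        exact v0_one hp.pos (orderOf_eq_prime hcp hc1)
      · intro i hi hi0
        simp only [L, mul_one]
        apply v0_inv hcp
        intro h
        rw [← pow_mul] at h
        have h3 := orderOf_dvd_of_pow_eq_one h
        rw [H270Q.order_of_image hcp hc1 _ s1 hs1 e1, pow_succ] at h3
        have h4 := Nat.dvd_of_mul_dvd_mul_right hp.pos h3
        exact absurd (Nat.le_of_dvd (Nat.pos_of_ne_zero hi0) h4) (by simpa using hi)
      · intro h
        exact absurd (Finset.mem_range.2 (pow_pos hp.pos k)) h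
    rw [h1] at h2
    exact zero_ne_one h2
  set T : G → F := (1 - τ2) • b with hT
  have hTV : InV c ω T := hbV.smul _
  have hT0 : T ≠ 0 := smul_ne_zero (sub_ne_zero.2 (Ne.symm hτ2')) hb0
  set w : FreeGroup (Fin n) := α * β * (β * α)⁻¹ with hw
  have hww : ww n k p hn = w := rfl
  have hρw : ∀ u, InV c ω u → rho hn c ω p μ w u = u + T := by
    intro u hu
    set f := rho hn c ω p μ ((β * α)⁻¹) u with hf
    have hfV : InV c ω f := rho_inV hn μ hc hcp hω.pow_eq_one _ hu
    have hu2 : u = rho hn c ω p μ (β * α) f := by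
      rw [hf, ← Equiv.Perm.mul_apply, ← map_mul, mul_inv_cancel, map_one]; rfl
    have h3 : rho hn c ω p μ (β * α) f = τ2 • (τ1 • f + b) := by
      rw [map_mul, Equiv.Perm.mul_apply, hρα f hfV, hρβ _ ((hfV.smul _).add hbV)]
    have h4 : rho hn c ω p μ w u = τ1 • (τ2 • f) + b := by
      rw [hw, map_mul, Equiv.Perm.mul_apply, ← hf, map_mul, Equiv.Perm.mul_apply, hρβ f hfV,
        hρα _ (hfV.smul _)]
    rw [h4, hu2, h3, hT]
    funext x
    simp only [Pi.add_apply, Pi.smul_apply, smul_eq_mul]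
    ring
  have hρwj : ∀ j : ℕ, ∀ u, InV c ω u → rho hn c ω p μ (w ^ j) u = u + (j : F) • T := by
    intro j
    induction j with
    | zero => intro u _; simp
    | succ j ih =>
      intro u hu
      rw [pow_succ', map_mul, Equiv.Perm.mul_apply, ih u hu, hρw _ (hu.add (hTV.smul _))]
      funext x
      simp only [Pi.add_apply, Pi.smul_apply, smul_eq_mul]
      push_cast
      ring
  have hmem : MulAut.conj (w ^ j) ∈ Krho hn μ c ω p := by
    rw [map_pow]
    exact hmem0
  have h5 := hmem 1 β 0 (InV.zero c ω)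
  have h6 : rho hn c ω p μ ((1 : MulAut (FreeGroup (Fin n))) β) 0 = 0 := by
    rw [MulAut.one_apply, hρβ 0 (InV.zero c ω), smul_zero]
  rw [h6, MulAut.one_apply, MulAut.conj_apply, map_mul, map_mul, Equiv.Perm.mul_apply,
    Equiv.Perm.mul_apply] at h5
  set y := rho hn c ω p μ ((w ^ j)⁻¹) 0 with hy
  have hyV : InV c ω y := rho_inV hn μ hc hcp hω.pow_eq_one _ (InV.zero c ω)
  have h7 : rho hn c ω p μ (w ^ j) y = 0 := by
    rw [hy, ← Equiv.Perm.mul_apply, ← map_mul, mul_inv_cancel, map_one]; rfl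
  rw [hρwj j y hyV] at h7
  rw [hρβ y hyV, hρwj j _ (hyV.smul _)] at h5
  have h8 : y = - ((j : F) • T) := eq_neg_of_add_eq_zero_left h7
  rw [h8] at h5
  have h9 : ((j : F) * (1 - τ2)) • T = 0 := by
    rw [← h5]
    funext x
    simp only [Pi.add_apply, Pi.smul_apply, Pi.neg_apply, smul_eq_mul]
    ring
  rcases smul_eq_zero.1 h9 with h10 | h10
  · rcases mul_eq_zero.1 h10 with h11 | h11
    · exact h11
    · exact absurd (sub_eq_zero.1 h11).symm hτ2'
  · exact absurd h10 hT0

instance hom_finite {n : ℕ} {P : Type*} [Group P] [Finite P] : Finite (FreeGroup (Fin n) →* P) :=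
  Finite.of_equiv _ (FreeGroup.lift (α := Fin n) (β := P))

/-- automorphisms act on the homomorphisms to a group -/
def act (n : ℕ) (P : Type*) [Group P] :
    MulAut (FreeGroup (Fin n)) →* Equiv.Perm (FreeGroup (Fin n) →* P) where
  toFun α :=
    { toFun := fun h => h.comp (α⁻¹ : MulAut (FreeGroup (Fin n))).toMonoidHom
      invFun := fun h => h.comp α.toMonoidHom
      left_inv := by
        intro h
        apply MonoidHom.ext
        intro x
        show h ((α⁻¹ : MulAut (FreeGroup (Fin n))) (α x)) = h x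
        rw [MulAut.inv_apply_self]
      right_inv := by
        intro h
        apply MonoidHom.ext
        intro x
        show h (α ((α⁻¹ : MulAut (FreeGroup (Fin n))) x)) = h x
        rw [MulAut.apply_inv_self] }
  map_one' := by
    apply Equiv.ext
    intro h
    apply MonoidHom.ext
    intro x
    show h ((1⁻¹ : MulAut (FreeGroup (Fin n))) x) = h x
    rw [inv_one]; rfl
  map_mul' a b := by
    apply Equiv.ext
    intro h
    apply MonoidHom.ext
    intro x
    show h (((a * b)⁻¹ : MulAut (FreeGroup (Fin n))) x) =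
      h ((b⁻¹ : MulAut (FreeGroup (Fin n))) ((a⁻¹ : MulAut (FreeGroup (Fin n))) x))
    rw [mul_inv_rev]; rfl

theorem Krho_finiteIndex [Finite G] [Finite F] : (Krho hn μ c ω p).FiniteIndex := by
  have h1 : (act n (Equiv.Perm (G → F))).ker.FiniteIndex := inferInstance
  apply Subgroup.finiteIndex_of_le (H := (act n (Equiv.Perm (G → F))).ker)
  intro α hα β x f _
  have h2 : α⁻¹ ∈ (act n (Equiv.Perm (G → F))).ker := Subgroup.inv_mem _ hα
  rw [MonoidHom.mem_ker] at h2
  have h3 := DFunLike.congr_fun h2 ((rho hn c ω p μ).comp β.toMonoidHom)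
  have h4 := DFunLike.congr_fun h3 x
  have h5 : ((rho hn c ω p μ).comp β.toMonoidHom) ((α⁻¹⁻¹ : MulAut (FreeGroup (Fin n))) x) =
      ((rho hn c ω p μ).comp β.toMonoidHom) x := h4
  rw [inv_inv] at h5
  have h6 : rho hn c ω p μ (β (α x)) = rho hn c ω p μ (β x) := h5
  rw [h6]

end

theorem infinite_normal {n : ℕ} (hn : 2 ≤ n) {G : Type*} [Group G] [Finite G] {c : G} {p : ℕ}
    (μ : FreeGroup (Fin n) →* G)
    [Fact p.Prime] {k m : ℕ} (hc : ∀ g, c * g = g * c) (hcp : c ^ p = 1) (hc1 : c ≠ 1)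
    (H : ∀ g, ab n p g ≠ 1 → ∃ s : ℕ, ¬ p ∣ s ∧ μ g ^ (p ^ k) = c ^ s)
    (hm : p ^ (k + 1) ∣ m) :
    Set.Infinite {N : Subgroup (MulAut (FreeGroup (Fin n)) ⧸
      Subgroup.normalClosure ({(nielsen n hn) ^ m} : Set (MulAut (FreeGroup (Fin n))))) |
        N.Normal ∧ N.FiniteIndex} := by
  classical
  have hp : p.Prime := Fact.out
  intro hfin
  set S := hfin.toFinset with hS
  set D := ∏ N ∈ S, N.index with hD
  have hDpos : 0 < D := by
    apply Finset.prod_pos
    intro N hN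
    have h1 := (hfin.mem_toFinset.1 hN).2
    exact Nat.pos_of_ne_zero h1.index_ne_zero
  obtain ⟨l, hl, hlD, hlp⟩ := Nat.exists_prime_gt_modEq_one (k := p) D hp.ne_zero
  have : Fact l.Prime := ⟨hl⟩
  -- a primitive root
  have hdvd : p ∣ Nat.card (ZMod l)ˣ := by
    rw [Nat.card_eq_fintype_card, ZMod.card_units]
    exact (Nat.modEq_iff_dvd' hl.one_lt.le).1 hlp.symm
  obtain ⟨u, hu⟩ := exists_prime_orderOf_dvd_card' p hdvd
  have hω : IsPrimitiveRoot ((u : (ZMod l)ˣ) : ZMod l) p := by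
    rw [IsPrimitiveRoot.coe_units_iff, ← hu]
    exact IsPrimitiveRoot.orderOf u
  set ω : ZMod l := ((u : (ZMod l)ˣ) : ZMod l) with hωdef
  set K := Krho hn μ c ω p with hK
  have hKn : K.Normal := Krho_normal hn c ω p μ
  have hKf : K.FiniteIndex := Krho_finiteIndex hn μ
  have hle : Subgroup.normalClosure ({(nielsen n hn) ^ m} : Set (MulAut (FreeGroup (Fin n)))) ≤ K := by
    apply Subgroup.normalClosure_le_normal
    intro y hy
    rw [Set.mem_singleton_iff] at hy
    rw [hy]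
    exact nielsen_mem hn μ hc hcp hω H hm
  set N := K.map (QuotientGroup.mk' (Subgroup.normalClosure
    ({(nielsen n hn) ^ m} : Set (MulAut (FreeGroup (Fin n)))))) with hN
  have hNn : N.Normal := hKn.map _ (QuotientGroup.mk'_surjective _)
  have hNf : N.FiniteIndex := by
    constructor
    intro h0
    have h1 := Subgroup.index_map_dvd K (QuotientGroup.mk'_surjective (Subgroup.normalClosure
      ({(nielsen n hn) ^ m} : Set (MulAut (FreeGroup (Fin n))))))
    rw [← hN, h0] at h1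
    exact hKf.index_ne_zero (Nat.eq_zero_of_zero_dvd h1)
  have hNS : N ∈ S := hfin.mem_toFinset.2 ⟨hNn, hNf⟩
  have hND : N.index ∣ D := Finset.dvd_prod_of_mem _ hNS
  have hNle : N.index ≤ D := Nat.le_of_dvd hDpos hND
  -- the power
  have h1 : ((MulAut.conj (ww n k p hn) : MulAut (FreeGroup (Fin n))) :
      MulAut (FreeGroup (Fin n)) ⧸ Subgroup.normalClosure
        ({(nielsen n hn) ^ m} : Set (MulAut (FreeGroup (Fin n))))) ^ N.index ∈ N :=
    Subgroup.pow_index_mem N _
  have h2 : (MulAut.conj (ww n k p hn)) ^ N.index ∈ K := by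
    rw [hN, Subgroup.mem_map] at h1
    obtain ⟨y, hy, h3⟩ := h1
    rw [← QuotientGroup.mk_pow] at h3
    have h4 : y⁻¹ * (MulAut.conj (ww n k p hn)) ^ N.index ∈ Subgroup.normalClosure
        ({(nielsen n hn) ^ m} : Set (MulAut (FreeGroup (Fin n)))) := QuotientGroup.eq.1 h3
    have h5 := K.mul_mem hy (hle h4)
    rwa [mul_inv_cancel_left] at h5
  have h3 := conj_order hn μ hc hcp hc1 hω H N.index h2
  have h4 : l ∣ N.index := (ZMod.natCast_eq_zero_iff _ _).1 h3
  have h5 := Nat.le_of_dvd (Nat.pos_of_ne_zero hNf.index_ne_zero) h4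
  omega

end Pool.Agent.Q236.QF
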